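import Pool.Agent.Run7.h434.EP.Iface

/-!
Piece PLN of the project EP of helper434 (helper942): polar coordinates in every block.
-/

set_option autoImplicit false

namespace Pool.Agent.Run7.h942.EP

open MeasureTheory Set Filter Topology
open scoped ENNReal InnerProductSpace Pointwise
open Run7.h523.KF (KK sv Master)
open Pool.Agent.W695.KH (Eu EV VV PerLe sec)
open Run7.h434.EP

section
variable {κ : Type} [Fintype κ]

theorem Body.nhds {L : Set (Eu κ)} (hL : Body L) : L ∈ 𝓝 (0 : Eu κ) := mem_interior_iff_mem_nhds.1 hL.zero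

theorem Body.cont {L : Set (Eu κ)} (hL : Body L) : Continuous (gauge L) :=
  continuous_gauge hL.conv (Body.nhds hL)

theorem Body.le_one {L : Set (Eu κ)} (hL : Body L) (x : Eu κ) : gauge L x ≤ 1 ↔ x ∈ L := by
  rw [gauge_le_one_iff_mem_closure hL.conv (Body.nhds hL), hL.comp.isClosed.closure_eq]

theorem Body.pos {L : Set (Eu κ)} (hL : Body L) {x : Eu κ} (hx : x ≠ 0) : 0 < gauge L x := by
  refine (gauge_pos (absorbent_nhds_zero (Body.nhds hL)) ?_).2 hx
  exact NormedSpace.isVonNBounded_of_isBounded _ hL.comp.isBounded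

theorem card_pos' [Nonempty κ] : 0 < (Fintype.card κ : ℝ) := by
  exact_mod_cast Fintype.card_pos

theorem gauge_tt [Nonempty κ] {L : Set (Eu κ)} (hL : Body L) {y : ℝ} (hy : y ∈ Icc (-1 : ℝ) 1) {ζ : Eu κ} (hζ : ζ ≠ 0) :
    gauge L (tt L y ζ) = ((1 + y) / 2) ^ (1 / (Fintype.card κ : ℝ)) := by
  have h1 : 0 ≤ (1 + y) / 2 := by linarith [hy.1]
  have h2 : 0 ≤ ((1 + y) / 2) ^ (1 / (Fintype.card κ : ℝ)) := Real.rpow_nonneg h1 _
  have h3 := Body.pos hL hζ
  unfold tt
  rw [gauge_smul_of_nonneg h2, gauge_smul_of_nonneg (inv_nonneg.2 h3.le)]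
  simp only [smul_eq_mul]
  rw [inv_mul_cancel₀ h3.ne', mul_one]

theorem gauge_tt_pow [Nonempty κ] {L : Set (Eu κ)} (hL : Body L) {y : ℝ} (hy : y ∈ Icc (-1 : ℝ) 1) {ζ : Eu κ}
    (hζ : ζ ≠ 0) : gauge L (tt L y ζ) ^ Fintype.card κ = (1 + y) / 2 := by
  have h1 : 0 ≤ (1 + y) / 2 := by linarith [hy.1]
  rw [gauge_tt hL hy hζ, ← Real.rpow_natCast, ← Real.rpow_mul h1, one_div_mul_cancel (card_pos').ne', Real.rpow_one]

theorem gauge_tt_le [Nonempty κ] {L : Set (Eu κ)} (hL : Body L) {y : ℝ} (hy : y ∈ Icc (-1 : ℝ) 1) {ζ : Eu κ}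
    (hζ : ζ ≠ 0) : gauge L (tt L y ζ) ≤ 1 := by
  rw [gauge_tt hL hy hζ]
  exact Real.rpow_le_one (by linarith [hy.1]) (by linarith [hy.2]) (by positivity)

theorem Tt_mem [Nonempty κ] {n : ℕ} (adj : Fin n → Fin n → Prop) {L : Set (Eu κ)} (hL : Body L) {y : Fin n → ℝ}
    (hy : ∀ v, y v ∈ Icc (-1 : ℝ) 1) {ζ : Fin n → Eu κ} (hζ : ∀ v, ζ v ≠ 0) :
    Tt L y ζ ∈ Run7.h434.EP.EP adj L ↔ y ∈ KK (Rel adj) := by
  have h1 : ∀ v, gauge L (Tt L y ζ v) ^ Fintype.card κ = (1 + y v) / 2 := fun v => gauge_tt_pow hL (hy v) (hζ v)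
  have h2 : ∀ v, gauge L (Tt L y ζ v) ≤ 1 := fun v => gauge_tt_le hL (hy v) (hζ v)
  constructor
  · rintro ⟨-, h⟩
    refine ⟨fun v => hy v, ?_⟩
    rintro ⟨v, b⟩ ⟨w, b'⟩ ⟨rfl, rfl, hvw⟩
    have h3 := h v w hvw
    rw [h1, h1] at h3
    simp only [sv, if_true, Bool.false_eq_true, if_false]
    linarith
  · rintro ⟨-, h⟩
    refine ⟨h2, fun v w hvw => ?_⟩
    rw [h1, h1]
    have h3 := h (v, true) (w, false) ⟨rfl, rfl, hvw⟩
    simp only [sv, if_true, Bool.false_eq_true, if_false] at h3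
    linarith

theorem isClosed_EP [Nonempty κ] {n : ℕ} (adj : Fin n → Fin n → Prop) {L : Set (Eu κ)} (hL : Body L) :
    IsClosed (Run7.h434.EP.EP adj L) := by
  have hc := Body.cont hL
  have : Run7.h434.EP.EP adj L = (⋂ v, {z : Fin n → Eu κ | gauge L (z v) ≤ 1}) ∩ ⋂ v, ⋂ w, ⋂ _ : adj v w,
      {z : Fin n → Eu κ | gauge L (z v) ^ Fintype.card κ + gauge L (z w) ^ Fintype.card κ ≤ 1} := by
    ext z
    simp [Run7.h434.EP.EP]
  rw [this]
  refine IsClosed.inter (isClosed_iInter fun v => ?_) (isClosed_iInter fun v => isClosed_iInter fun w => isClosed_iInter fun _ => ?_)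
  · exact isClosed_le (hc.comp (continuous_apply v)) continuous_const
  · exact isClosed_le (((hc.comp (continuous_apply v)).pow _).add ((hc.comp (continuous_apply w)).pow _)) continuous_const

theorem EP_sub [Nonempty κ] {n : ℕ} (adj : Fin n → Fin n → Prop) {L : Set (Eu κ)} (hL : Body L) :
    Run7.h434.EP.EP adj L ⊆ Set.pi univ fun _ : Fin n => L := by
  intro z hz v _
  exact (Body.le_one hL _).1 (hz.1 v)

theorem isClosed_KK {P : Type} (R : P × Bool → P × Bool → Prop) : IsClosed (KK R) := by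
  have : KK R = (⋂ v, {y : P → ℝ | -1 ≤ y v ∧ y v ≤ 1}) ∩ ⋂ a, ⋂ b, ⋂ _ : R a b, {y : P → ℝ | sv y a ≤ sv y b} := by
    ext y
    simp only [KK, mem_ofPred_eq, mem_inter_iff, mem_iInter]
  rw [this]
  have hs : ∀ a : P × Bool, Continuous fun y : P → ℝ => sv y a := by
    rintro ⟨v, b⟩
    cases b
    · have h := (continuous_apply (A := fun _ : P => ℝ) v).neg
      exact h
    · simpa [sv] using continuous_apply v
  refine IsClosed.inter (isClosed_iInter fun v => ?_) (isClosed_iInter fun a => isClosed_iInter fun b => isClosed_iInter fun _ => ?_)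
  · exact (isClosed_le continuous_const (continuous_apply v)).inter (isClosed_le (continuous_apply v) continuous_const)
  · exact isClosed_le (hs a) (hs b)

theorem KK_sub {P : Type} (R : P × Bool → P × Bool → Prop) : KK R ⊆ Set.pi univ fun _ : P => Icc (-1 : ℝ) 1 :=
  fun _ hy v _ => hy.1 v

theorem measurable_tt {L : Set (Eu κ)} (hL : Body L) : Measurable fun p : ℝ × Eu κ => tt L p.1 p.2 := by
  have hc := (Body.cont hL).measurable
  unfold tt
  have h1 : Measurable fun p : ℝ × Eu κ => ((1 + p.1) / 2) ^ (1 / (Fintype.card κ : ℝ)) := by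
    fun_prop
  have h2 : Measurable fun p : ℝ × Eu κ => (gauge L p.2)⁻¹ := (hc.comp measurable_snd).inv
  exact h1.smul (h2.smul measurable_snd)

theorem mp_tt [Nonempty κ] (hP : S_POL) {L : Set (Eu κ)} (hL : Body L) :
    MeasurePreserving (fun p : ℝ × Eu κ => tt L p.1 p.2)
      (((volume : Measure ℝ).restrict (Icc (-1 : ℝ) 1)).prod ((volume : Measure (Eu κ)).restrict L))
      ((2 : ℝ≥0∞) • (volume : Measure (Eu κ)).restrict L) := by
  refine ⟨measurable_tt hL, ?_⟩
  refine Measure.ext_of_lintegral _ fun h hh => ?_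
  rw [lintegral_map hh (measurable_tt hL), lintegral_smul_measure, smul_eq_mul, hP κ L hL h hh]
  exact lintegral_prod _ (hh.comp (measurable_tt hL)).aemeasurable

end

theorem pi_smul_meas {ι : Type} [Fintype ι] {α : Type} [MeasurableSpace α] (μ : Measure α) [SigmaFinite μ] (c : ℝ≥0∞)
    [SigmaFinite (c • μ)] :
    Measure.pi (fun _ : ι => c • μ) = c ^ Fintype.card ι • Measure.pi fun _ : ι => μ := by
  refine Measure.pi_eq fun s hs => ?_
  rw [Measure.smul_apply, Measure.pi_pi, smul_eq_mul]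
  simp only [Measure.smul_apply, smul_eq_mul]
  rw [Finset.prod_mul_distrib, Finset.prod_const, Finset.card_univ]

variable {κ : Type} [Fintype κ]

theorem lint_Tt [Nonempty κ] (hP : S_POL) {n : ℕ} {L : Set (Eu κ)} (hL : Body L) (h : (Fin n → Eu κ) → ℝ≥0∞)
    (hh : Measurable h) :
    2 ^ n * ∫⁻ z in Set.pi univ (fun _ : Fin n => L), h z =
      ∫⁻ y in Set.pi univ (fun _ : Fin n => Icc (-1 : ℝ) 1), ∫⁻ ζ in Set.pi univ (fun _ : Fin n => L), h (Tt L y ζ) := by
  have hfin : IsFiniteMeasure ((volume : Measure (Eu κ)).restrict L) :=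
    ⟨by rw [Measure.restrict_apply_univ]; exact hL.comp.measure_lt_top⟩
  have hfin2 : IsFiniteMeasure ((2 : ℝ≥0∞) • (volume : Measure (Eu κ)).restrict L) :=
    Measure.smul_finite _ (by norm_num)
  have h1 := measurePreserving_pi (ι := Fin n)
    (fun _ : Fin n => (((volume : Measure ℝ).restrict (Icc (-1 : ℝ) 1)).prod ((volume : Measure (Eu κ)).restrict L)))
    (fun _ : Fin n => ((2 : ℝ≥0∞) • (volume : Measure (Eu κ)).restrict L))
    (fun _ => mp_tt hP hL)
  have h2 := measurePreserving_arrowProdEquivProdArrow ℝ (Eu κ) (Fin n)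
    (fun _ => (volume : Measure ℝ).restrict (Icc (-1 : ℝ) 1)) (fun _ => (volume : Measure (Eu κ)).restrict L)
  have h3 := h1.lintegral_comp hh
  rw [pi_smul_meas, lintegral_smul_measure, Fintype.card_fin, smul_eq_mul] at h3
  have e1 : (Measure.pi fun _ : Fin n => (volume : Measure (Eu κ)).restrict L) =
      (volume : Measure (Fin n → Eu κ)).restrict (Set.pi univ fun _ : Fin n => L) := by
    rw [volume_pi, Measure.restrict_pi_pi]
  have e2 : (Measure.pi fun _ : Fin n => (volume : Measure ℝ).restrict (Icc (-1 : ℝ) 1)) =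
      (volume : Measure (Fin n → ℝ)).restrict (Set.pi univ fun _ : Fin n => Icc (-1 : ℝ) 1) := by
    rw [volume_pi, Measure.restrict_pi_pi]
  have hT : Measurable fun p : (Fin n → ℝ) × (Fin n → Eu κ) => Tt L p.1 p.2 := by
    refine measurable_pi_lambda _ fun v => ?_
    have := (measurable_tt hL).comp (((measurable_pi_apply v).comp measurable_fst).prodMk
      ((measurable_pi_apply v).comp measurable_snd) : Measurable fun p : (Fin n → ℝ) × (Fin n → Eu κ) => (p.1 v, p.2 v))
    exact this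
  have h4 := h2.lintegral_comp (hh.comp hT)
  rw [lintegral_prod _ (hh.comp hT).aemeasurable, e1, e2] at h4
  rw [e1] at h3
  rw [← h3, ← Function.comp_def h]
  exact h4

theorem ae_ne [Nonempty κ] {n : ℕ} (L : Set (Eu κ)) :
    ∀ᵐ ζ : Fin n → Eu κ ∂(volume.restrict (Set.pi univ fun _ : Fin n => L)), ∀ v, ζ v ≠ 0 := by
  refine ae_restrict_of_ae ?_
  rw [ae_all_iff]
  intro v
  rw [volume_pi]
  exact Measure.ae_eval_ne (fun _ : Fin n => (volume : Measure (Eu κ))) v (0 : Eu κ)

theorem t_PLN : S_POL → S_PLN := by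
  intro hP n κ _ _ adj L hL h hh
  have hE := (isClosed_EP adj hL).measurableSet
  have hK := (isClosed_KK (Rel adj)).measurableSet
  have h1 := lint_Tt hP hL ((Run7.h434.EP.EP adj L).indicator h) (hh.indicator hE)
  rw [lintegral_indicator hE, Measure.restrict_restrict hE, inter_eq_left.2 (EP_sub adj hL)] at h1
  rw [h1]
  have h2 : ∀ y ∈ Set.pi univ (fun _ : Fin n => Icc (-1 : ℝ) 1),
      ∫⁻ ζ in Set.pi univ (fun _ : Fin n => L), (Run7.h434.EP.EP adj L).indicator h (Tt L y ζ) =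
      (KK (Rel adj)).indicator (fun y => ∫⁻ ζ in Set.pi univ (fun _ : Fin n => L), h (Tt L y ζ)) y := by
    intro y hy
    have hy' : ∀ v, y v ∈ Icc (-1 : ℝ) 1 := fun v => hy v (mem_univ v)
    by_cases hyK : y ∈ KK (Rel adj)
    · rw [indicator_of_mem hyK]
      refine lintegral_congr_ae ?_
      filter_upwards [ae_ne (n := n) L] with ζ hζ
      rw [indicator_of_mem ((Tt_mem adj hL hy' hζ).2 hyK)]
    · rw [indicator_of_notMem hyK, ← lintegral_zero (μ := volume.restrict (Set.pi univ fun _ : Fin n => L))]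
      refine lintegral_congr_ae ?_
      filter_upwards [ae_ne (n := n) L] with ζ hζ
      rw [indicator_of_notMem (fun h' => hyK ((Tt_mem adj hL hy' hζ).1 h'))]
  rw [setLIntegral_congr_fun (MeasurableSet.univ_pi fun _ => measurableSet_Icc) h2,
    lintegral_indicator hK, Measure.restrict_restrict hK, inter_eq_left.2 (KK_sub (Rel adj))]

end Pool.Agent.Run7.h942.EP
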