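import Pool.Agent.Run7.h942.EP.PLN

/-!
Piece VAR of the project EP of helper434 (helper942): second moments from polar coordinates.
-/

set_option autoImplicit false

namespace Pool.Agent.Run7.h942.EP

open MeasureTheory Set Filter Topology
open scoped ENNReal InnerProductSpace Pointwise
open Run7.h523.KF (KK sv Master)
open Pool.Agent.W695.KH (Eu EV VV PerLe sec)
open Run7.h434.EP

variable {κ : Type} [Fintype κ]

theorem measurable_Tt {n : ℕ} {L : Set (Eu κ)} (hL : Body L) :
    Measurable fun p : (Fin n → ℝ) × (Fin n → Eu κ) => Tt L p.1 p.2 := by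
  refine measurable_pi_lambda _ fun v => ?_
  have := (measurable_tt hL).comp (((measurable_pi_apply v).comp measurable_fst).prodMk
    ((measurable_pi_apply v).comp measurable_snd) : Measurable fun p : (Fin n → ℝ) × (Fin n → Eu κ) => (p.1 v, p.2 v))
  exact this

theorem map_Tt [Nonempty κ] (hP : S_PLN) {n : ℕ} (adj : Fin n → Fin n → Prop) {L : Set (Eu κ)} (hL : Body L) :
    Measure.map (fun p : (Fin n → ℝ) × (Fin n → Eu κ) => Tt L p.1 p.2)
      (((volume : Measure (Fin n → ℝ)).restrict (KK (Rel adj))).prod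
        ((volume : Measure (Fin n → Eu κ)).restrict (Set.pi univ fun _ : Fin n => L))) =
      ((2 : ℝ≥0∞) ^ n) • (volume : Measure (Fin n → Eu κ)).restrict (Run7.h434.EP.EP adj L) := by
  refine Measure.ext_of_lintegral _ fun h hh => ?_
  rw [lintegral_map hh (measurable_Tt hL), lintegral_smul_measure, smul_eq_mul, hP n κ adj L hL h hh]
  exact lintegral_prod _ (hh.comp (measurable_Tt hL)).aemeasurable

/-- radial factor -/
noncomputable def ra (κ : Type) [Fintype κ] (y : ℝ) : ℝ := ((1 + y) / 2) ^ (1 / (Fintype.card κ : ℝ))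

/-- angular factor -/
noncomputable def an (L : Set (Eu κ)) (θ ζ : Eu κ) : ℝ := ⟪θ, (gauge L ζ)⁻¹ • ζ⟫_ℝ

theorem inner_Tt {n : ℕ} (L : Set (Eu κ)) (θ : Eu κ) (v : Fin n) (y : Fin n → ℝ) (ζ : Fin n → Eu κ) :
    ⟪θ, Tt L y ζ v⟫_ℝ = ra κ (y v) * an L θ (ζ v) := by
  unfold Tt tt ra an
  rw [inner_smul_right]

theorem int_EP [Nonempty κ] (hP : S_PLN) {n : ℕ} (adj : Fin n → Fin n → Prop) {L : Set (Eu κ)} (hL : Body L)
    (θ : Eu κ) (v : Fin n) (j : ℕ) :
    2 ^ n * ∫ z in Run7.h434.EP.EP adj L, ⟪θ, z v⟫_ℝ ^ j =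
      (∫ y in KK (Rel adj), ra κ (y v) ^ j) * ∫ ζ in Set.pi univ (fun _ : Fin n => L), an L θ (ζ v) ^ j := by
  have hF : Continuous fun z : Fin n → Eu κ => ⟪θ, z v⟫_ℝ ^ j :=
    (continuous_const.inner (continuous_apply v)).pow j
  have h1 : ∫ z, ⟪θ, z v⟫_ℝ ^ j ∂(((2 : ℝ≥0∞) ^ n) • (volume : Measure (Fin n → Eu κ)).restrict (Run7.h434.EP.EP adj L)) =
      2 ^ n * ∫ z in Run7.h434.EP.EP adj L, ⟪θ, z v⟫_ℝ ^ j := by
    rw [integral_smul_measure]
    simp
  rw [← h1, ← map_Tt hP adj hL, integral_map (measurable_Tt hL).aemeasurable hF.aestronglyMeasurable]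
  simp only [inner_Tt, mul_pow]
  exact integral_prod_mul (fun y : Fin n → ℝ => ra κ (y v) ^ j) (fun ζ : Fin n → Eu κ => an L θ (ζ v) ^ j)

theorem EP_false [Nonempty κ] {n : ℕ} {L : Set (Eu κ)} (hL : Body L) :
    Run7.h434.EP.EP (fun _ _ : Fin n => False) L = Set.pi univ fun _ : Fin n => L := by
  refine Subset.antisymm (EP_sub _ hL) fun z hz => ⟨fun v => (Body.le_one hL _).2 (hz v (mem_univ v)), fun v w h => h.elim⟩

theorem KK_false {n : ℕ} : KK (Rel (fun _ _ : Fin n => False)) = Set.pi univ fun _ : Fin n => Icc (-1 : ℝ) 1 := by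
  refine Subset.antisymm (KK_sub _) fun z hz => ⟨fun v => hz v (mem_univ v), fun a b h => h.2.2.elim⟩

theorem vol_pos {L : Set (Eu κ)} (hL : Body L) : 0 < (volume L).toReal := by
  refine ENNReal.toReal_pos ?_ hL.comp.measure_lt_top.ne
  exact (Measure.measure_pos_of_nonempty_interior _ ⟨0, hL.zero⟩).ne'

theorem int_pi {n : ℕ} {L : Set (Eu κ)} (hL : Body L) (F : Eu κ → ℝ) (hF : Continuous F) (v : Fin n) :
    ∫ z in Set.pi univ (fun _ : Fin n => L), F (z v) = (volume L).toReal ^ (n - 1) * ∫ x in L, F x := by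
  have hfin : IsFiniteMeasure ((volume : Measure (Eu κ)).restrict L) :=
    ⟨by rw [Measure.restrict_apply_univ]; exact hL.comp.measure_lt_top⟩
  have h1 := Measure.pi_map_eval (fun _ : Fin n => (volume : Measure (Eu κ)).restrict L) v
  have e1 : (Measure.pi fun _ : Fin n => (volume : Measure (Eu κ)).restrict L) =
      (volume : Measure (Fin n → Eu κ)).restrict (Set.pi univ fun _ : Fin n => L) := by
    rw [volume_pi, Measure.restrict_pi_pi]
  rw [e1] at h1
  have h2 : ∫ x, F x ∂(Measure.map (Function.eval v)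
      ((volume : Measure (Fin n → Eu κ)).restrict (Set.pi univ fun _ : Fin n => L))) =
      ∫ z in Set.pi univ (fun _ : Fin n => L), F (z v) := by
    rw [integral_map (measurable_pi_apply v).aemeasurable hF.aestronglyMeasurable]
  rw [← h2, h1, integral_smul_measure, smul_eq_mul]
  congr 1
  simp [Finset.prod_const, Finset.card_erase_of_mem]

theorem vol_EP [Nonempty κ] (hP : S_PLN) {n : ℕ} (adj : Fin n → Fin n → Prop) {L : Set (Eu κ)} (hL : Body L) :
    2 ^ n * (volume (Run7.h434.EP.EP adj L)).toReal = (volume (KK (Rel adj))).toReal * (volume L).toReal ^ n := by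
  have h := hP n κ adj L hL (fun _ => 1) measurable_const
  simp only [lintegral_const, Measure.restrict_apply_univ, one_mul] at h
  have h3 : volume (Set.pi univ fun _ : Fin n => L) = (volume L) ^ n := by
    rw [volume_pi, Measure.pi_pi]
    simp
  rw [h3] at h
  have h2 := congrArg ENNReal.toReal h
  rw [ENNReal.toReal_mul, ENNReal.toReal_mul, ENNReal.toReal_pow, ENNReal.toReal_pow] at h2
  rw [mul_comm (volume (KK (Rel adj))).toReal]
  simpa using h2

theorem ra_bounds [Nonempty κ] {y : ℝ} (hy : y ∈ Icc (-1 : ℝ) 1) : (1 + y) / 2 ≤ ra κ y ∧ 0 ≤ ra κ y ∧ ra κ y ≤ 1 := by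
  have h0 : 0 ≤ (1 + y) / 2 := by linarith [hy.1]
  have h1 : (1 + y) / 2 ≤ 1 := by linarith [hy.2]
  have hd : (1 : ℝ) ≤ (Fintype.card κ : ℝ) := by exact_mod_cast Fintype.card_pos
  have he : 1 / (Fintype.card κ : ℝ) ≤ 1 := by
    rw [div_le_one (by linarith)]
    exact hd
  have he0 : 0 < 1 / (Fintype.card κ : ℝ) := by positivity
  refine ⟨?_, Real.rpow_nonneg h0 _, Real.rpow_le_one h0 h1 he0.le⟩
  rcases h0.eq_or_lt with h | h
  · rw [← h]
    exact Real.rpow_nonneg h0 _
  · calc (1 + y) / 2 = ((1 + y) / 2) ^ (1 : ℝ) := (Real.rpow_one _).symm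
      _ ≤ ra κ y := Real.rpow_le_rpow_of_exponent_ge h h1 he

theorem continuous_ra [Nonempty κ] : Continuous (ra κ) := by
  have he0 : 0 < 1 / (Fintype.card κ : ℝ) := by
    have := card_pos' (κ := κ)
    positivity
  unfold ra
  exact (by fun_prop : Continuous fun y : ℝ => (1 + y) / 2).rpow_const fun y => Or.inr he0.le

theorem isCompact_KK {n : ℕ} (R : Fin n × Bool → Fin n × Bool → Prop) : IsCompact (KK R) :=
  (isCompact_univ_pi fun _ => isCompact_Icc).of_isClosed_subset (isClosed_KK R) (KK_sub R)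

theorem int_KK {n : ℕ} (R : Fin n × Bool → Fin n × Bool → Prop) {g : (Fin n → ℝ) → ℝ} (hg : Continuous g) :
    IntegrableOn g (KK R) := hg.continuousOn.integrableOn_compact (isCompact_KK R)

theorem ev_ep [Nonempty κ] (hT : S_TRF) {n : ℕ} (adj : Fin n → Fin n → Prop) {L : Set (Eu κ)} (hL : Body L)
    (F : (Fin n → Eu κ) → ℝ) (hF : Continuous F) :
    EV (ep adj L) (fun z => F (blk z)) = (∫ z in Run7.h434.EP.EP adj L, F z) / (volume (Run7.h434.EP.EP adj L)).toReal := by
  obtain ⟨-, -, hmp, -⟩ := hT n κ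
  have hE := (isClosed_EP adj hL).measurableSet
  have h1 : volume (ep adj L) = volume (Run7.h434.EP.EP adj L) := hmp.measure_preimage hE.nullMeasurableSet
  have h2 := hmp.restrict_preimage hE
  have h3 : ∫ z in Run7.h434.EP.EP adj L, F z = ∫ z in ep adj L, F (blk z) := by
    rw [← h2.map_eq, integral_map h2.measurable.aemeasurable hF.aestronglyMeasurable]
    rfl
  unfold EV
  rw [h1, h3]

theorem t_VAR : S_PLN → S_MEAN → S_TRF → S_VAR := by
  intro hP hM hT n κ _ _ adj L hn hL h0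
  obtain ⟨hKK, v, hv⟩ := hM n adj hn
  refine ⟨v, fun θ => ?_⟩
  have hA := vol_pos hL
  set A : ℝ := (volume L).toReal with hAdef
  set V : ℝ := (volume (KK (Rel adj))).toReal with hVdef
  have hV : 0 < V := by
    refine ENNReal.toReal_pos (lt_of_lt_of_le zero_lt_one hKK).ne' (isCompact_KK _).measure_lt_top.ne
  have hvE := vol_EP hP adj hL
  rw [← hAdef, ← hVdef] at hvE
  have hE : 0 < (volume (Run7.h434.EP.EP adj L)).toReal := by
    have : 0 < (2 : ℝ) ^ n * (volume (Run7.h434.EP.EP adj L)).toReal := by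
      rw [hvE]
      positivity
    exact (mul_pos_iff_of_pos_left (by positivity)).1 this
  set W : ℝ := (volume (Run7.h434.EP.EP adj L)).toReal with hWdef
  have hAn : A ^ n = A ^ (n - 1) * A := by
    rw [← pow_succ, Nat.sub_add_cancel hn]
  -- the two identities
  have hI : ∀ j : ℕ, 2 ^ n * ∫ z in Run7.h434.EP.EP adj L, ⟪θ, z v⟫_ℝ ^ j =
      (∫ y in KK (Rel adj), ra κ (y v) ^ j) * ∫ ζ in Set.pi univ (fun _ : Fin n => L), an L θ (ζ v) ^ j :=
    fun j => int_EP hP adj hL θ v j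
  have hJ : ∀ j : ℕ, 2 ^ n * (A ^ (n - 1) * ∫ x in L, ⟪θ, x⟫_ℝ ^ j) =
      (∫ y in Set.pi univ (fun _ : Fin n => Icc (-1 : ℝ) 1), ra κ (y v) ^ j) *
        ∫ ζ in Set.pi univ (fun _ : Fin n => L), an L θ (ζ v) ^ j := by
    intro j
    have h := int_EP hP (fun _ _ : Fin n => False) hL θ v j
    rw [EP_false hL, KK_false] at h
    rw [← h, ← int_pi hL (fun x => ⟪θ, x⟫_ℝ ^ j) ((continuous_const.inner continuous_id).pow j) v]
  have hcube : MeasurableSet (Set.pi univ (fun _ : Fin n => Icc (-1 : ℝ) 1)) :=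
    MeasurableSet.univ_pi fun _ => measurableSet_Icc
  have hcc : IsCompact (Set.pi univ (fun _ : Fin n => Icc (-1 : ℝ) 1)) := isCompact_univ_pi fun _ => isCompact_Icc
  have hcra : ∀ j : ℕ, Continuous fun y : Fin n → ℝ => ra κ (y v) ^ j := fun j =>
    (continuous_ra.comp (continuous_apply v)).pow j
  -- the first moment of the radial factor on the cube is positive
  have hM1 : 0 < ∫ y in Set.pi univ (fun _ : Fin n => Icc (-1 : ℝ) 1), ra κ (y v) ^ 1 := by
    have hsub : Set.pi univ (fun _ : Fin n => Icc (0 : ℝ) 1) ⊆ Set.pi univ (fun _ : Fin n => Icc (-1 : ℝ) 1) :=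
      fun z hz i hi => ⟨by linarith [(hz i hi).1], (hz i hi).2⟩
    have h1 : ∫ y in Set.pi univ (fun _ : Fin n => Icc (0 : ℝ) 1), ra κ (y v) ^ 1 ≤
        ∫ y in Set.pi univ (fun _ : Fin n => Icc (-1 : ℝ) 1), ra κ (y v) ^ 1 := by
      refine setIntegral_mono_set ((hcra 1).continuousOn.integrableOn_compact hcc) ?_ hsub.eventuallyLE
      filter_upwards [self_mem_ae_restrict hcube] with y hy
      exact pow_nonneg (ra_bounds (hy v (mem_univ v))).2.1 1
    have h2 : (1 / 2 : ℝ) ≤ ∫ y in Set.pi univ (fun _ : Fin n => Icc (0 : ℝ) 1), ra κ (y v) ^ 1 := by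
      have hvol : volume (Set.pi univ (fun _ : Fin n => Icc (0 : ℝ) 1)) = 1 := by
        rw [volume_pi, Measure.pi_pi]
        simp
      have h3 : ∫ y in Set.pi univ (fun _ : Fin n => Icc (0 : ℝ) 1), (1 / 2 : ℝ) = 1 / 2 := by
        rw [setIntegral_const, measureReal_def, hvol]
        simp
      rw [← h3]
      refine setIntegral_mono_on ?_ ?_ (MeasurableSet.univ_pi fun _ => measurableSet_Icc) ?_
      · exact continuousOn_const.integrableOn_compact (isCompact_univ_pi fun _ => isCompact_Icc)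
      · exact (hcra 1).continuousOn.integrableOn_compact (isCompact_univ_pi fun _ => isCompact_Icc)
      · intro y hy
        have h4 := (ra_bounds (κ := κ) (hsub hy v (mem_univ v))).1
        have h5 := (hy v (mem_univ v)).1
        rw [pow_one]
        linarith
    linarith
  -- the second moment on the cube is at most the volume
  have hM2 : ∫ y in Set.pi univ (fun _ : Fin n => Icc (-1 : ℝ) 1), ra κ (y v) ^ 2 ≤ 2 ^ n := by
    have hvol : volume (Set.pi univ (fun _ : Fin n => Icc (-1 : ℝ) 1)) = 2 ^ n := by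
      rw [volume_pi, Measure.pi_pi]
      simp only [Real.volume_Icc, Finset.prod_const, Finset.card_univ, Fintype.card_fin]
      norm_num
    have h3 : ∫ y in Set.pi univ (fun _ : Fin n => Icc (-1 : ℝ) 1), (1 : ℝ) = 2 ^ n := by
      rw [setIntegral_const, measureReal_def, hvol]
      simp
    rw [← h3]
    refine setIntegral_mono_on ?_ ?_ hcube ?_
    · exact (hcra 2).continuousOn.integrableOn_compact hcc
    · exact continuousOn_const.integrableOn_compact hcc
    · intro y hy
      have h4 := (ra_bounds (κ := κ) (hy v (mem_univ v))).2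
      exact pow_le_one₀ h4.1 h4.2
  -- the second moment on the polytope
  have hM3 : 4 / 121 * V ≤ ∫ y in KK (Rel adj), ra κ (y v) ^ 2 := by
    have hc1 : Continuous fun y : Fin n → ℝ => (1 + y v) / 2 := by fun_prop
    have h1 : ∫ y in KK (Rel adj), (2 * (2 / 11) * ((1 + y v) / 2) - (2 / 11) ^ 2) ≤
        ∫ y in KK (Rel adj), ra κ (y v) ^ 2 := by
      refine setIntegral_mono_on (int_KK _ (by fun_prop)) (int_KK _ (hcra 2)) (isClosed_KK _).measurableSet ?_
      intro y hy
      have h2 := (ra_bounds (κ := κ) (hy.1 v)).1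
      have h3 : 0 ≤ (1 + y v) / 2 := by linarith [(hy.1 v).1]
      have h4 : ((1 + y v) / 2) ^ 2 ≤ ra κ (y v) ^ 2 := pow_le_pow_left₀ h3 h2 2
      nlinarith [sq_nonneg ((1 + y v) / 2 - 2 / 11)]
    have h2 : ∫ y in KK (Rel adj), (2 * (2 / 11) * ((1 + y v) / 2) - (2 / 11) ^ 2) =
        2 * (2 / 11) * (∫ y in KK (Rel adj), (1 + y v) / 2) - (2 / 11) ^ 2 * V := by
      rw [integral_sub (int_KK _ (by fun_prop)) (int_KK _ continuous_const), integral_const_mul, setIntegral_const,
        measureReal_def, smul_eq_mul, ← hVdef]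
      ring
    rw [h2] at h1
    nlinarith [hv, hV]
  constructor
  · -- first moment
    have hF : EV (ep adj L) (fun z => ⟪θ, blk z v⟫_ℝ) = (∫ z in Run7.h434.EP.EP adj L, ⟪θ, z v⟫_ℝ) / W :=
      ev_ep hT adj hL (fun z => ⟪θ, z v⟫_ℝ) (continuous_const.inner (continuous_apply v))
    rw [hF]
    have h1 := h0 θ
    unfold EV at h1
    have h2 : ∫ x in L, ⟪θ, x⟫_ℝ = 0 := by
      rcases div_eq_zero_iff.1 h1 with h | h
      · exact h
      · exact absurd h hA.ne'
    have h3 := hJ 1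
    have h4 := hI 1
    simp only [pow_one] at h3 h4 hM1
    rw [h2, mul_zero, mul_zero] at h3
    have h5 : ∫ ζ in Set.pi univ (fun _ : Fin n => L), an L θ (ζ v) = 0 := by
      rcases mul_eq_zero.1 h3.symm with h | h
      · exact absurd h hM1.ne'
      · exact h
    rw [h5, mul_zero] at h4
    have h6 : ∫ z in Run7.h434.EP.EP adj L, ⟪θ, z v⟫_ℝ = 0 := by
      rcases mul_eq_zero.1 h4 with h | h
      · exact absurd h (by positivity)
      · exact h
    rw [h6, zero_div]
  · have hF : EV (ep adj L) (fun z => ⟪θ, blk z v⟫_ℝ ^ 2) = (∫ z in Run7.h434.EP.EP adj L, ⟪θ, z v⟫_ℝ ^ 2) / W :=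
      ev_ep hT adj hL (fun z => ⟪θ, z v⟫_ℝ ^ 2) ((continuous_const.inner (continuous_apply v)).pow 2)
    rw [hF]
    unfold EV
    rw [← hAdef]
    have h3 := hJ 2
    have h4 := hI 2
    set G : ℝ := ∫ ζ in Set.pi univ (fun _ : Fin n => L), an L θ (ζ v) ^ 2 with hG
    have hG0 : 0 ≤ G := by
      rw [hG]
      exact setIntegral_nonneg (MeasurableSet.univ_pi fun _ => hL.comp.isClosed.measurableSet) fun ζ _ => sq_nonneg _
    set M0 : ℝ := ∫ y in Set.pi univ (fun _ : Fin n => Icc (-1 : ℝ) 1), ra κ (y v) ^ 2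
    set M : ℝ := ∫ y in KK (Rel adj), ra κ (y v) ^ 2
    set I1 : ℝ := ∫ x in L, ⟪θ, x⟫_ℝ ^ 2
    set I2 : ℝ := ∫ z in Run7.h434.EP.EP adj L, ⟪θ, z v⟫_ℝ ^ 2
    have e1 : I1 / A = M0 * G / (2 ^ n * A ^ n) := by
      rw [hAn, div_eq_div_iff hA.ne' (by positivity)]
      linear_combination A * h3
    have e2 : I2 / W = M * G / (V * A ^ n) := by
      rw [div_eq_div_iff hE.ne' (by positivity), ← hvE]
      linear_combination W * h4
    rw [e1, e2]
    have e3 : M0 * G / (2 ^ n * A ^ n) ≤ G / A ^ n := by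
      rw [div_le_div_iff₀ (by positivity) (by positivity)]
      have : M0 * G * A ^ n ≤ 2 ^ n * G * A ^ n := by gcongr
      linarith
    have e4 : 4 / 121 * (G / A ^ n) ≤ M * G / (V * A ^ n) := by
      rw [← mul_div_assoc, div_le_div_iff₀ (by positivity) (by positivity)]
      have : (4 / 121 * V) * (G * A ^ n) ≤ M * (G * A ^ n) := by gcongr
      linarith
    calc 4 / 121 * (M0 * G / (2 ^ n * A ^ n)) ≤ 4 / 121 * (G / A ^ n) := by gcongr
      _ ≤ _ := e4

end Pool.Agent.Run7.h942.EP
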